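import Pool.Agent.H33.NC.Near

/-!
# Maps which preserve the midpoints of segments of length two

An affine analogue of the theorem of Beckman and Quarles: a map of a Euclidean space of dimension at least two, for
which the images of the unit spheres have bounded eccentricity and antipodal points of the unit spheres have antipodal
images, is affine. The quantitative version.
-/

set_option autoImplicit false

open Set Filter Topology Metric

noncomputable section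

namespace Pool.Agent.H33.NA

open Pool.Agent.H33.NC

variable {n : ℕ}

section rigid

variable {V : Type*} [NormedAddCommGroup V] [NormedSpace ℝ V]

theorem affine_of (hn : 2 ≤ n) {G : E n → V} {K : ℝ}
    (hQ : ∀ u v w : E n, ‖u - v‖ = 1 → ‖u - w‖ = 1 → ‖G u - G v‖ ≤ K * ‖G u - G w‖)
    (hM : ∀ u v w : E n, ‖u - v‖ = 1 → ‖u - w‖ = 1 → ‖v - w‖ = 2 → G v + G w = (2 : ℝ) • G u) :
    ∃ L : E n →L[ℝ] V, ∀ z, G z = G 0 + L z := by
  have hM' : ∀ p h : E n, ‖h‖ = 1 → G (p + h) - G p = G p - G (p - h) := by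
    intro p h hh
    have h1 := hM p (p + h) (p - h) (by rw [sub_add_cancel_left, norm_neg, hh]) (by rw [sub_sub_cancel, hh]) (by
      have : p + h - (p - h) = (2 : ℝ) • h := by module
      rw [this, norm_smul, hh]; norm_num)
    rw [two_smul] at h1
    rw [sub_eq_sub_iff_add_eq_add]
    exact h1
  -- periodicity of the differences
  have hper : ∀ p h : E n, ‖h‖ = 1 → ∀ m : ℕ, G (p + (m + 1 : ℝ) • h) - G (p + (m : ℝ) • h) = G (p + h) - G p := by
    intro p h hh m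
    induction m with
    | zero => simp
    | succ m ih =>
      have h1 := hM' (p + ((m : ℝ) + 1) • h) h hh
      have h2 : p + ((m : ℝ) + 1) • h - h = p + (m : ℝ) • h := by module
      have h3 : p + ((m : ℝ) + 1) • h + h = p + ((m : ℝ) + 1 + 1) • h := by module
      rw [h2, h3] at h1
      push_cast
      rw [h1, ih]
  have hlin : ∀ p h : E n, ‖h‖ = 1 → ∀ m : ℕ, G (p + (m : ℝ) • h) = G p + (m : ℝ) • (G (p + h) - G p) := by
    intro p h hh m
    induction m with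
    | zero => simp
    | succ m ih =>
      have h1 := hper p h hh m
      have h2 : G (p + (m + 1 : ℝ) • h) = G (p + (m : ℝ) • h) + (G (p + h) - G p) := by
        rw [← h1]; abel
      push_cast
      rw [h2, ih]
      module
  have hA1 : ∀ p h k : E n, ‖h‖ = 1 → ‖k‖ = 1 → G (p + k + h) - G (p + k) = G (p + h) - G p := by
    intro p h k hh hk
    obtain ⟨Δ, hΔ⟩ : ∃ Δ : V, Δ = (G (p + k + h) - G (p + k)) - (G (p + h) - G p) := ⟨_, rfl⟩
    obtain ⟨C, hC⟩ : ∃ C : ℝ, C = K * ‖G (p + h) - G p‖ + ‖G (p + k) - G p‖ := ⟨_, rfl⟩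
    have hb : ∀ m : ℕ, (m : ℝ) * ‖Δ‖ ≤ C := by
      intro m
      have h1 : ‖G (p + k + (m : ℝ) • h) - G (p + (m : ℝ) • h)‖ ≤ K * ‖G (p + h) - G p‖ := by
        have h2 := hQ (p + (m : ℝ) • h) (p + k + (m : ℝ) • h) (p + (m + 1 : ℝ) • h) (by
          have : p + (m : ℝ) • h - (p + k + (m : ℝ) • h) = -k := by abel
          rw [this, norm_neg, hk]) (by
          have : p + (m : ℝ) • h - (p + (m + 1 : ℝ) • h) = -h := by module
          rw [this, norm_neg, hh])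
        rw [norm_sub_rev, norm_sub_rev (G (p + (m : ℝ) • h)), hper p h hh m] at h2
        exact h2
      have h2 : (m : ℝ) • Δ = (G (p + k + (m : ℝ) • h) - G (p + (m : ℝ) • h)) - (G (p + k) - G p) := by
        rw [hlin (p + k) h hh m, hlin p h hh m, hΔ]
        module
      have h3 : (m : ℝ) * ‖Δ‖ = ‖(m : ℝ) • Δ‖ := by
        rw [norm_smul, Real.norm_eq_abs, abs_of_nonneg (Nat.cast_nonneg m)]
      rw [h3, h2, hC]
      refine (norm_sub_le _ _).trans ?_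
      linarith
    have h0 : Δ = 0 := by
      by_contra hne
      have hpos : 0 < ‖Δ‖ := norm_pos_iff.2 hne
      obtain ⟨m, hm⟩ := exists_nat_gt (C / ‖Δ‖)
      rw [div_lt_iff₀ hpos] at hm
      linarith [hb m]
    rw [hΔ, sub_eq_zero] at h0
    exact h0
  have hA2 : ∀ h : E n, ‖h‖ = 1 → ∀ m : ℕ, ∀ p q : E n, ‖p - q‖ ≤ m → G (p + h) - G p = G (q + h) - G q := by
    intro h hh m
    have hstep : ∀ p q : E n, ‖p - q‖ ≤ 2 → G (p + h) - G p = G (q + h) - G q := by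
      intro p q hpq
      obtain ⟨z, hz1, hz2⟩ := exists_third hn (a := 1) (b := 1) (by norm_num) (by norm_num) p q (by linarith)
        (by linarith [norm_nonneg (p - q)]) (by linarith [norm_nonneg (p - q)])
      have h1 := hA1 p h (z - p) hh (by rw [norm_sub_rev]; exact hz1)
      have h2 := hA1 z h (q - z) hh (by rw [norm_sub_rev]; exact hz2)
      rw [add_sub_cancel] at h1 h2
      rw [← h1, ← h2]
    induction m with
    | zero =>
      intro p q hpq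
      rw [Nat.cast_zero] at hpq
      rw [sub_eq_zero.1 (norm_le_zero_iff.1 hpq)]
    | succ m ih =>
      intro p q hpq
      have hm : (0 : ℝ) < (m : ℝ) + 1 := by positivity
      push_cast at hpq
      have h1 := ih p (p + ((m : ℝ) / (m + 1)) • (q - p)) (by
        rw [sub_add_cancel_left, norm_neg, norm_smul, Real.norm_eq_abs, abs_of_nonneg (by positivity), norm_sub_rev]
        calc (m : ℝ) / (m + 1) * ‖p - q‖ ≤ (m : ℝ) / (m + 1) * (m + 1) := by gcongr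
          _ = m := by field_simp)
      have h2 := hstep (p + ((m : ℝ) / (m + 1)) • (q - p)) q (by
        have h3 : p + ((m : ℝ) / (m + 1)) • (q - p) - q = (1 / ((m : ℝ) + 1)) • (p - q) := by
          have h4 : (1 / ((m : ℝ) + 1)) = 1 - (m : ℝ) / (m + 1) := by field_simp; ring
          rw [h4]
          module
        rw [h3, norm_smul, Real.norm_eq_abs, abs_of_pos (by positivity)]
        calc 1 / ((m : ℝ) + 1) * ‖p - q‖ ≤ 1 / ((m : ℝ) + 1) * (m + 1) := by gcongr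
          _ = 1 := by field_simp
          _ ≤ 2 := by norm_num)
      rw [h1, h2]
  have hA3 : ∀ h p q : E n, ‖h‖ = 1 → G (p + h) - G p = G (q + h) - G q := by
    intro h p q hh
    obtain ⟨m, hm⟩ := exists_nat_ge ‖p - q‖
    exact hA2 h hh m p q hm
  -- every vector of length at most two is the sum of two unit vectors
  have hsplit : ∀ v : E n, ‖v‖ ≤ 2 → ∃ h k : E n, ‖h‖ = 1 ∧ ‖k‖ = 1 ∧ v = h + k := by
    intro v hv
    obtain ⟨z, hz1, hz2⟩ := exists_third hn (a := 1) (b := 1) (by norm_num) (by norm_num) 0 v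
      (by rw [zero_sub, norm_neg]; linarith) (by linarith [norm_nonneg (0 - v)]) (by linarith [norm_nonneg (0 - v)])
    refine ⟨z, v - z, by rwa [zero_sub, norm_neg] at hz1, by rwa [norm_sub_rev] at hz2, by abel⟩
  have hD2 : ∀ v p q : E n, ‖v‖ ≤ 2 → G (p + v) - G p = G (q + v) - G q := by
    intro v p q hv
    obtain ⟨h, k, hh, hk, rfl⟩ := hsplit v hv
    have h1 := hA3 h p q hh
    have h2 := hA3 k (p + h) (q + h) hk
    rw [← add_assoc, ← add_assoc]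
    have h3 : G (p + h + k) - G p = (G (p + h + k) - G (p + h)) + (G (p + h) - G p) := by abel
    have h4 : G (q + h + k) - G q = (G (q + h + k) - G (q + h)) + (G (q + h) - G q) := by abel
    rw [h3, h4, h1, h2]
  have hD : ∀ m : ℕ, ∀ v : E n, ‖v‖ ≤ m → ∀ p q : E n, G (p + v) - G p = G (q + v) - G q := by
    intro m
    induction m with
    | zero =>
      intro v hv p q
      rw [Nat.cast_zero] at hv
      rw [norm_le_zero_iff.1 hv, add_zero, add_zero, sub_self, sub_self]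
    | succ m ih =>
      intro v hv p q
      push_cast at hv
      obtain ⟨a, ha⟩ : ∃ a : E n, a = ((m : ℝ) / (m + 1)) • v := ⟨_, rfl⟩
      obtain ⟨b, hb⟩ : ∃ b : E n, b = (1 / ((m : ℝ) + 1)) • v := ⟨_, rfl⟩
      have hm : (0 : ℝ) < (m : ℝ) + 1 := by positivity
      have hab : v = a + b := by
        have h4 : (m : ℝ) / (m + 1) + 1 / ((m : ℝ) + 1) = 1 := by field_simp
        rw [ha, hb, ← add_smul, h4, one_smul]
      have ha1 : ‖a‖ ≤ m := by
        rw [ha, norm_smul, Real.norm_eq_abs, abs_of_nonneg (by positivity)]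
        calc (m : ℝ) / (m + 1) * ‖v‖ ≤ (m : ℝ) / (m + 1) * (m + 1) := by gcongr
          _ = m := by field_simp
      have hb1 : ‖b‖ ≤ 2 := by
        rw [hb, norm_smul, Real.norm_eq_abs, abs_of_pos (by positivity)]
        calc 1 / ((m : ℝ) + 1) * ‖v‖ ≤ 1 / ((m : ℝ) + 1) * (m + 1) := by gcongr
          _ = 1 := by field_simp
          _ ≤ 2 := by norm_num
      have h1 := ih a ha1 p q
      have h2 := hD2 b (p + a) (q + a) hb1
      rw [hab, ← add_assoc, ← add_assoc]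
      have h3 : G (p + a + b) - G p = (G (p + a + b) - G (p + a)) + (G (p + a) - G p) := by abel
      have h4 : G (q + a + b) - G q = (G (q + a + b) - G (q + a)) + (G (q + a) - G q) := by abel
      rw [h3, h4, h1, h2]
  obtain ⟨e, he⟩ : ∃ e : E n, ‖e‖ = 1 := ⟨EuclideanSpace.single ⟨0, by omega⟩ (1 : ℝ), by simp⟩
  let T : E n →+ V :=
    { toFun := fun v => G v - G 0
      map_zero' := by simp
      map_add' := by
        intro v w
        obtain ⟨m, hm⟩ := exists_nat_ge ‖w‖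
        have h1 := hD m w hm v 0
        rw [zero_add] at h1
        rw [← h1]
        abel }
  have hT : ∀ v, T v = G v - G 0 := fun _ => rfl
  obtain ⟨C, hC⟩ : ∃ C : ℝ, C = K * ‖G 0 - G e‖ := ⟨_, rfl⟩
  have hTb : ∀ v : E n, ‖v‖ ≤ 2 → ‖T v‖ ≤ 2 * C := by
    intro v hv
    obtain ⟨h, k, hh, hk, rfl⟩ := hsplit v hv
    rw [map_add]
    have h1 : ∀ h : E n, ‖h‖ = 1 → ‖T h‖ ≤ C := by
      intro h hh
      rw [hT, norm_sub_rev, hC]
      exact hQ 0 h e (by rw [zero_sub, norm_neg, hh]) (by rw [zero_sub, norm_neg, he])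
    linarith [norm_add_le (T h) (T k), h1 h hh, h1 k hk]
  have hTc : Continuous T := by
    refine continuous_of_continuousAt_zero T ?_
    rw [Metric.continuousAt_iff]
    intro η hη
    obtain ⟨m, hm⟩ := exists_nat_gt (2 * C / η)
    have hm2 : 2 * C < ((m : ℝ) + 1) * η := by
      rw [div_lt_iff₀ hη] at hm
      linarith
    refine ⟨2 / ((m : ℝ) + 1), by positivity, fun {v} hv => ?_⟩
    rw [dist_zero_right] at hv
    rw [map_zero, dist_zero_right]
    have h1 := hTb ((m + 1 : ℕ) • v) (by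
      rw [← Nat.cast_smul_eq_nsmul ℝ, norm_smul, Real.norm_eq_abs, abs_of_nonneg (by positivity)]
      push_cast
      rw [lt_div_iff₀ (by positivity)] at hv
      linarith)
    rw [map_nsmul, ← Nat.cast_smul_eq_nsmul ℝ, norm_smul, Real.norm_eq_abs, abs_of_nonneg (by positivity)] at h1
    push_cast at h1
    have h2 : ((m : ℝ) + 1) * ‖T v‖ < ((m : ℝ) + 1) * η := by linarith
    exact lt_of_mul_lt_mul_left h2 (by positivity)
  refine ⟨T.toRealLinearMap hTc, fun z => ?_⟩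
  show G z = G 0 + T z
  rw [hT]
  abel

end rigid

/-- the assumptions on a sequence of maps -/
structure Seq (K : ℝ) (G : ℕ → E n → E n) (e : E n) : Prop where
  K1 : 1 ≤ K
  ecc : ∀ C : ℝ, ∀ᶠ k : ℕ in atTop, ∀ u v w : E n, ‖u‖ ≤ C → ‖v‖ ≤ C → ‖w‖ ≤ C → ‖u - v‖ = 1 → ‖u - w‖ = 1 →
    ‖G k u - G k v‖ ≤ K * ‖G k u - G k w‖
  mid : ∀ C : ℝ, ∀ᶠ k : ℕ in atTop, ∀ u v w : E n, ‖u‖ ≤ C → ‖v‖ ≤ C → ‖w‖ ≤ C → ‖u - v‖ = 1 → ‖u - w‖ = 1 →
    ‖v - w‖ = 2 → ‖G k v + G k w - (2 : ℝ) • G k u‖ ≤ 1 / ((k : ℝ) + 1) * ‖G k u - G k v‖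
  zero : ∀ k, G k 0 = 0
  unit : ∀ k, ‖G k 0 - G k e‖ = 1
  e1 : ‖e‖ = 1

theorem Seq.bound {K : ℝ} {G : ℕ → E n → E n} {e : E n} (hG : Seq K G e) (hn : 2 ≤ n) (m : ℕ) :
    ∃ C : ℝ, 1 ≤ C ∧ ∀ᶠ k : ℕ in atTop, ∀ p : E n, ‖p‖ ≤ m →
      ‖G k p‖ ≤ C ∧ ∀ q : E n, ‖p - q‖ = 1 → ‖G k p - G k q‖ ≤ C := by
  have hK := hG.K1
  have hK0 : 0 < K := by linarith
  induction m with
  | zero =>
    refine ⟨K, hK, ?_⟩
    filter_upwards [hG.ecc 1] with k hk p hp
    rw [Nat.cast_zero] at hp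
    rw [norm_le_zero_iff.1 hp]
    refine ⟨by rw [hG.zero, norm_zero]; linarith, fun q hq => ?_⟩
    have h1 := hk 0 q e (by rw [norm_zero]; norm_num) (by rw [zero_sub, norm_neg] at hq; exact hq.le) hG.e1.le hq
      (by rw [zero_sub, norm_neg, hG.e1])
    rwa [hG.unit, mul_one] at h1
  | succ m ih =>
    obtain ⟨C, hC1, hC⟩ := ih
    refine ⟨C + (K * K * C + K * C), by nlinarith [mul_pos hK0 hK0, mul_pos (mul_pos hK0 hK0) (by linarith : 0 < C)], ?_⟩
    filter_upwards [hC, hG.ecc ((m : ℝ) + 3)] with k hk hecc p hp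
    push_cast at hp
    have hm : (0 : ℝ) < (m : ℝ) + 1 := by positivity
    obtain ⟨r, hr⟩ : ∃ r : E n, r = ((m : ℝ) / (m + 1)) • p := ⟨_, rfl⟩
    have hr1 : ‖r‖ ≤ m := by
      rw [hr, norm_smul, Real.norm_eq_abs, abs_of_nonneg (by positivity)]
      calc (m : ℝ) / (m + 1) * ‖p‖ ≤ (m : ℝ) / (m + 1) * (m + 1) := by gcongr
        _ = m := by field_simp
    have hr2 : ‖r - p‖ ≤ 1 := by
      have h3 : r - p = (-(1 / ((m : ℝ) + 1))) • p := by
        have h4 : -(1 / ((m : ℝ) + 1)) = (m : ℝ) / (m + 1) - 1 := by field_simp; ring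
        rw [h4, hr, sub_smul _ 1, one_smul]
      rw [h3, norm_smul, norm_neg, Real.norm_eq_abs, abs_of_pos (by positivity)]
      calc 1 / ((m : ℝ) + 1) * ‖p‖ ≤ 1 / ((m : ℝ) + 1) * (m + 1) := by gcongr
        _ = 1 := by field_simp
    obtain ⟨q, hq1, hq2⟩ := exists_third hn (a := 1) (b := 1) (by norm_num) (by norm_num) r p (by linarith)
      (by linarith [norm_nonneg (r - p)]) (by linarith [norm_nonneg (r - p)])
    have hqn : ‖q‖ ≤ (m : ℝ) + 2 := by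
      have := norm_sub_le p (p - q)
      rw [sub_sub_cancel, norm_sub_rev p q, hq2] at this
      linarith
    obtain ⟨e1, e2⟩ := hk r hr1
    have e3 := e2 q hq1
    have e4 : ‖G k q - G k p‖ ≤ K * C := by
      have h5 := hecc q p r (by linarith) (by linarith) (by linarith) hq2 (by rw [norm_sub_rev]; exact hq1)
      rw [norm_sub_rev (G k q) (G k r)] at h5
      exact h5.trans (mul_le_mul_of_nonneg_left e3 hK0.le)
    have hKC : 0 ≤ K * C := by positivity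
    have hKKC : 0 ≤ K * K * C := by positivity
    refine ⟨?_, fun q' hq' => ?_⟩
    · have h5 : G k p = G k r - (G k r - G k q) - (G k q - G k p) := by abel
      have h6 : ‖G k p‖ ≤ ‖G k r‖ + ‖G k r - G k q‖ + ‖G k q - G k p‖ := by
        conv_lhs => rw [h5]
        exact (norm_sub_le _ _).trans (add_le_add_left (norm_sub_le _ _) _)
      have h7 : C ≤ K * K * C := by
        have : 1 * C ≤ K * K * C := mul_le_mul_of_nonneg_right (by nlinarith) (by linarith)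
        linarith
      linarith
    · have hq'n : ‖q'‖ ≤ (m : ℝ) + 3 := by
        have := norm_sub_le p (p - q')
        rw [sub_sub_cancel, hq'] at this
        linarith
      have h5 := hecc p q' q (by linarith) hq'n (by linarith) hq' (by rw [norm_sub_rev]; exact hq2)
      rw [norm_sub_rev (G k p) (G k q)] at h5
      have h6 : K * ‖G k q - G k p‖ ≤ K * (K * C) := mul_le_mul_of_nonneg_left e4 hK0.le
      linarith

theorem Seq.lim {K : ℝ} {G : ℕ → E n → E n} {e : E n} (hG : Seq K G e) (hn : 2 ≤ n) {p : ℕ → E n} (hp : Bd p) :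
    ∃ y : E n, Tendsto (fun k => G k (p k)) UU (𝓝 y) := by
  obtain ⟨C, hC⟩ := hp
  obtain ⟨m, hm⟩ := exists_nat_ge C
  obtain ⟨C', -, hC'⟩ := hG.bound hn m
  have h1 := (isCompact_closedBall (0 : E n) C').ultrafilter_le_nhds ((hyperfilter ℕ).map fun k => G k (p k)) (by
    rw [le_principal_iff]
    show ∀ᶠ k in UU, G k (p k) ∈ closedBall (0 : E n) C'
    filter_upwards [UU_le hC'] with k hk
    rw [mem_closedBall_zero_iff]
    exact (hk (p k) ((hC k).trans hm)).1)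
  obtain ⟨y, _, hy⟩ := h1
  exact ⟨y, hy⟩

/-- the limits of the maps composed with motions are affine -/
theorem Seq.affine {K : ℝ} {G : ℕ → E n → E n} {e : E n} (hG : Seq K G e) (hn : 2 ≤ n) {T : ℕ → E n → E n}
    (hT : ∀ k x y, ‖T k x - T k y‖ = ‖x - y‖) (h0 : Bd fun k => T k 0) :
    ∃ (g : E n → E n) (L : E n →L[ℝ] E n), (∀ z, Tendsto (fun k => G k (T k z)) UU (𝓝 (g z))) ∧
      (∀ z, g z = g 0 + L z) ∧ ∀ u v w : E n, ‖u - v‖ = 1 → ‖u - w‖ = 1 → ‖g u - g v‖ ≤ K * ‖g u - g w‖ := by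
  obtain ⟨C, hC⟩ := h0
  have hB' : ∀ z k, ‖T k z‖ ≤ ‖z‖ + C := by
    intro z k
    have h2 := norm_sub_le_norm_sub_add_norm_sub (T k z) (T k 0) 0
    rw [hT, sub_zero, sub_zero, sub_zero] at h2
    linarith [hC k]
  have hB : ∀ z : E n, Bd fun k => T k z := fun z => ⟨‖z‖ + C, hB' z⟩
  have h2 : ∀ z : E n, ∃ y : E n, Tendsto (fun k => G k (T k z)) UU (𝓝 y) := fun z => hG.lim hn (hB z)
  choose g hg using h2
  have hQ : ∀ u v w : E n, ‖u - v‖ = 1 → ‖u - w‖ = 1 → ‖g u - g v‖ ≤ K * ‖g u - g w‖ := by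
    intro u v w huv huw
    have t1 : Tendsto (fun k => ‖G k (T k u) - G k (T k v)‖) UU (𝓝 ‖g u - g v‖) := ((hg u).sub (hg v)).norm
    have t2 : Tendsto (fun k => K * ‖G k (T k u) - G k (T k w)‖) UU (𝓝 (K * ‖g u - g w‖)) :=
      ((hg u).sub (hg w)).norm.const_mul K
    refine le_of_tendsto_of_tendsto t1 t2 ?_
    filter_upwards [UU_le (hG.ecc (max ‖u‖ (max ‖v‖ ‖w‖) + C))] with k hk
    refine hk _ _ _ ?_ ?_ ?_ (by rw [hT]; exact huv) (by rw [hT]; exact huw)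
    · exact (hB' u k).trans (by linarith [le_max_left ‖u‖ (max ‖v‖ ‖w‖)])
    · exact (hB' v k).trans (by linarith [(le_max_left ‖v‖ ‖w‖).trans (le_max_right ‖u‖ (max ‖v‖ ‖w‖))])
    · exact (hB' w k).trans (by linarith [(le_max_right ‖v‖ ‖w‖).trans (le_max_right ‖u‖ (max ‖v‖ ‖w‖))])
  obtain ⟨L, hL⟩ := affine_of hn hQ (by
    intro u v w huv huw hvw
    have t1 : Tendsto (fun k => ‖G k (T k v) + G k (T k w) - (2 : ℝ) • G k (T k u)‖) UU
        (𝓝 ‖g v + g w - (2 : ℝ) • g u‖) := (((hg v).add (hg w)).sub ((hg u).const_smul 2)).norm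
    have t2 : Tendsto (fun k : ℕ => 1 / ((k : ℝ) + 1) * ‖G k (T k u) - G k (T k v)‖) UU (𝓝 (0 * ‖g u - g v‖)) :=
      ((tendsto_one_div_add_atTop_nhds_zero_nat (𝕜 := ℝ)).mono_left UU_le).mul ((hg u).sub (hg v)).norm
    have h3 := le_of_tendsto_of_tendsto t1 t2 (by
      filter_upwards [UU_le (hG.mid (max ‖u‖ (max ‖v‖ ‖w‖) + C))] with k hk
      refine hk _ _ _ ?_ ?_ ?_ (by rw [hT]; exact huv) (by rw [hT]; exact huw) (by rw [hT]; exact hvw)
      · exact (hB' u k).trans (by linarith [le_max_left ‖u‖ (max ‖v‖ ‖w‖)])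
      · exact (hB' v k).trans (by linarith [(le_max_left ‖v‖ ‖w‖).trans (le_max_right ‖u‖ (max ‖v‖ ‖w‖))])
      · exact (hB' w k).trans (by linarith [(le_max_right ‖v‖ ‖w‖).trans (le_max_right ‖u‖ (max ‖v‖ ‖w‖))]))
    rw [zero_mul] at h3
    exact sub_eq_zero.1 (norm_le_zero_iff.1 h3))
  exact ⟨g, L, hg, hL, hQ⟩

theorem Seq.small {K : ℝ} {G : ℕ → E n → E n} {e : E n} (hG : Seq K G e) (hn : 2 ≤ n) {p : ℕ → E n} (hp : Bd p) :
    ∃ C : ℝ, 0 < C ∧ ∀ a : ℝ, 0 ≤ a → ∀ q : ℕ → E n, (∀ᶠ k in UU, ‖p k - q k‖ = a) →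
      ∀ᶠ k in UU, ‖G k (p k) - G k (q k)‖ ≤ C * a + a := by
  classical
  obtain ⟨C0, hC0⟩ := hp
  obtain ⟨m, hm⟩ := exists_nat_ge C0
  obtain ⟨C, hC1, hC⟩ := hG.bound hn m
  refine ⟨C, by linarith, fun a ha q hq => ?_⟩
  rcases ha.eq_or_lt with h0 | h0
  · rw [← h0] at hq ⊢
    filter_upwards [hq] with k hk
    rw [sub_eq_zero.1 (norm_eq_zero.1 hk)]
    simp
  obtain ⟨q', hq'⟩ : ∃ q' : ℕ → E n, q' = fun k => if ‖p k - q k‖ = a then q k else p k - a • e := ⟨_, rfl⟩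
  have h1 : ∀ k, ‖p k - q' k‖ = a := by
    intro k
    rw [hq']
    simp only
    split_ifs with h
    · exact h
    · rw [sub_sub_cancel, norm_smul, hG.e1, mul_one, Real.norm_eq_abs, abs_of_nonneg ha]
  have h2 : ∀ k, ∃ T : E n → E n, (∀ x y, ‖T x - T y‖ = ‖x - y‖) ∧ T 0 = p k ∧ T (a • e) = q' k := by
    intro k
    refine exists_motion ?_
    rw [sub_zero, norm_smul, hG.e1, mul_one, Real.norm_eq_abs, abs_of_nonneg ha, norm_sub_rev, h1 k]
  choose T hT hT0 hT1 using h2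
  obtain ⟨g, L, hg, hL, -⟩ := hG.affine hn hT ⟨C0, fun k => by
    show ‖T k 0‖ ≤ C0
    rw [hT0]
    exact hC0 k⟩
  have h3 : ‖L e‖ ≤ C := by
    have t1 : Tendsto (fun k => ‖G k (T k 0) - G k (T k e)‖) UU (𝓝 ‖g 0 - g e‖) := ((hg 0).sub (hg e)).norm
    have h4 : ‖g 0 - g e‖ ≤ C := by
      refine le_of_tendsto t1 ?_
      filter_upwards [UU_le hC] with k hk
      refine (hk _ ?_).2 _ ?_
      · rw [hT0]; exact (hC0 k).trans hm
      · rw [hT, zero_sub, norm_neg, hG.e1]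
    rw [hL e, sub_add_cancel_left, norm_neg] at h4
    exact h4
  have t2 : Tendsto (fun k => ‖G k (T k 0) - G k (T k (a • e))‖) UU (𝓝 ‖g 0 - g (a • e)‖) :=
    ((hg 0).sub (hg (a • e))).norm
  have h5 : ‖g 0 - g (a • e)‖ < C * a + a := by
    rw [hL (a • e), sub_add_cancel_left, norm_neg, map_smul, norm_smul, Real.norm_eq_abs, abs_of_nonneg ha]
    nlinarith
  filter_upwards [t2.eventually (gt_mem_nhds h5), hq] with k hk hk2
  rw [hT0, hT1, hq'] at hk
  simp only at hk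
  rw [if_pos hk2] at hk
  exact hk.le

theorem Seq.tozero {K : ℝ} {G : ℕ → E n → E n} {e : E n} (hG : Seq K G e) (hn : 2 ≤ n) {p q : ℕ → E n} (hp : Bd p)
    (hq : Bd q) (h : Tendsto (fun k => ‖p k - q k‖) UU (𝓝 0)) :
    Tendsto (fun k => ‖G k (p k) - G k (q k)‖) UU (𝓝 0) := by
  classical
  obtain ⟨C1, hC1, H1⟩ := hG.small hn hp
  obtain ⟨C2, hC2, H2⟩ := hG.small hn hq
  rw [tendsto_order]
  refine ⟨fun a ha => Eventually.of_forall fun k => ha.trans_le (norm_nonneg _), fun a ha => ?_⟩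
  obtain ⟨η, hη⟩ : ∃ η : ℝ, η = a / (C1 + C2 + 3) := ⟨_, rfl⟩
  have hη0 : 0 < η := by rw [hη]; positivity
  have hηa : η * (C1 + C2 + 3) = a := by rw [hη]; field_simp
  have h1 : ∀ k, ∃ z : E n, ‖p k - q k‖ ≤ 2 * η → ‖p k - z‖ = η ∧ ‖z - q k‖ = η := by
    intro k
    by_cases hk : ‖p k - q k‖ ≤ 2 * η
    · obtain ⟨z, hz1, hz2⟩ := exists_third hn hη0.le hη0.le (p k) (q k) (by linarith)
        (by linarith [norm_nonneg (p k - q k)]) (by linarith [norm_nonneg (p k - q k)])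
      exact ⟨z, fun _ => ⟨hz1, hz2⟩⟩
    · exact ⟨0, fun h' => absurd h' hk⟩
  choose z hz using h1
  have hev : ∀ᶠ k in UU, ‖p k - q k‖ ≤ 2 * η := by
    filter_upwards [h.eventually (gt_mem_nhds (show (0 : ℝ) < 2 * η by positivity))] with k hk
    exact hk.le
  have t1 := H1 η hη0.le z (by filter_upwards [hev] with k hk; exact (hz k hk).1)
  have t2 := H2 η hη0.le z (by filter_upwards [hev] with k hk; rw [norm_sub_rev]; exact (hz k hk).2)
  filter_upwards [t1, t2] with k e1 e2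
  have e3 := norm_sub_le_norm_sub_add_norm_sub (G k (p k)) (G k (z k)) (G k (q k))
  rw [norm_sub_rev (G k (z k))] at e3
  nlinarith

/-- **Nearly antipodal images of antipodal points.** -/
theorem near_affine (n : ℕ) (hn : 2 ≤ n) {K : ℝ} (hK : 1 ≤ K) {ε : ℝ} (hε : 0 < ε) (R : ℝ) :
    ∃ δ : ℝ, 0 < δ ∧ ∃ R' : ℝ, 0 < R' ∧
    ∀ F : E n → E n, (∀ u v w : E n, ‖u‖ ≤ R' → ‖v‖ ≤ R' → ‖w‖ ≤ R' → ‖u - v‖ = 1 → ‖u - w‖ = 1 →
      ‖F u - F v‖ < K * ‖F u - F w‖) →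
    (∀ u v w : E n, ‖u‖ ≤ R' → ‖v‖ ≤ R' → ‖w‖ ≤ R' → ‖u - v‖ = 1 → ‖u - w‖ = 1 → ‖v - w‖ = 2 →
      ‖F v + F w - (2 : ℝ) • F u‖ ≤ δ * ‖F u - F v‖) →
    ∃ (κ : ℝ) (L : E n →L[ℝ] E n), 0 < κ ∧ (∀ z, ‖z‖ ≤ K * ‖L z‖ ∧ ‖L z‖ ≤ K * ‖z‖) ∧
      ∀ u : E n, ‖u‖ ≤ R → ‖κ • (F u - F 0) - L u‖ ≤ ε := by
  by_contra hcon
  push Not at hcon
  have h1 : ∀ k : ℕ, ∃ F : E n → E n, (∀ u v w : E n, ‖u‖ ≤ (k : ℝ) + 1 → ‖v‖ ≤ (k : ℝ) + 1 → ‖w‖ ≤ (k : ℝ) + 1 →
      ‖u - v‖ = 1 → ‖u - w‖ = 1 → ‖F u - F v‖ < K * ‖F u - F w‖) ∧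
      (∀ u v w : E n, ‖u‖ ≤ (k : ℝ) + 1 → ‖v‖ ≤ (k : ℝ) + 1 → ‖w‖ ≤ (k : ℝ) + 1 → ‖u - v‖ = 1 → ‖u - w‖ = 1 →
      ‖v - w‖ = 2 → ‖F v + F w - (2 : ℝ) • F u‖ ≤ 1 / ((k : ℝ) + 1) * ‖F u - F v‖) ∧
      ∀ (κ : ℝ) (L : E n →L[ℝ] E n), 0 < κ → (∀ z, ‖z‖ ≤ K * ‖L z‖ ∧ ‖L z‖ ≤ K * ‖z‖) →
      ∃ u : E n, ‖u‖ ≤ R ∧ ε < ‖κ • (F u - F 0) - L u‖ := fun k =>
    hcon (1 / ((k : ℝ) + 1)) (by positivity) ((k : ℝ) + 1) (by positivity)
  choose F hF1 hF2 hF3 using h1
  obtain ⟨e, he⟩ : ∃ e : E n, ‖e‖ = 1 := ⟨EuclideanSpace.single ⟨0, by omega⟩ (1 : ℝ), by simp⟩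
  obtain ⟨c, hc⟩ : ∃ c : ℕ → ℝ, ∀ k, c k = ‖F k 0 - F k e‖ := ⟨_, fun _ => rfl⟩
  have hc0 : ∀ k, 0 < c k := by
    intro k
    have hk : (0 : ℝ) ≤ k := Nat.cast_nonneg k
    have h2 := hF1 k 0 e e (by rw [norm_zero]; positivity) (by rw [he]; linarith) (by rw [he]; linarith)
      (by rw [zero_sub, norm_neg, he]) (by rw [zero_sub, norm_neg, he])
    rw [← hc] at h2
    have h3 : 0 ≤ c k := by rw [hc]; exact norm_nonneg _
    rcases h3.eq_or_lt with h4 | h4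
    · rw [← h4] at h2; simp at h2
    · exact h4
  obtain ⟨G, hGd⟩ : ∃ G : ℕ → E n → E n, ∀ k x, G k x = (c k)⁻¹ • (F k x - F k 0) := ⟨_, fun _ _ => rfl⟩
  have hGn : ∀ k x y, ‖G k x - G k y‖ = (c k)⁻¹ * ‖F k x - F k y‖ := by
    intro k x y
    rw [hGd, hGd, ← smul_sub, sub_sub_sub_cancel_right, norm_smul, Real.norm_eq_abs,
      abs_of_pos (inv_pos.2 (hc0 k))]
  have hG : Seq K G e := by
    refine ⟨hK, fun C => ?_, fun C => ?_, fun k => ?_, fun k => ?_, he⟩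
    · obtain ⟨m, hm⟩ := exists_nat_ge C
      filter_upwards [eventually_ge_atTop m] with k hk u v w hu hv hw h2 h3
      have hk' : (m : ℝ) ≤ k := by exact_mod_cast hk
      have h4 := hF1 k u v w (by linarith) (by linarith) (by linarith) h2 h3
      rw [hGn, hGn]
      have h5 : 0 < (c k)⁻¹ := inv_pos.2 (hc0 k)
      calc (c k)⁻¹ * ‖F k u - F k v‖ ≤ (c k)⁻¹ * (K * ‖F k u - F k w‖) := mul_le_mul_of_nonneg_left h4.le h5.le
        _ = K * ((c k)⁻¹ * ‖F k u - F k w‖) := by ring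
    · obtain ⟨m, hm⟩ := exists_nat_ge C
      filter_upwards [eventually_ge_atTop m] with k hk u v w hu hv hw h2 h3 h3'
      have hk' : (m : ℝ) ≤ k := by exact_mod_cast hk
      have h4 := hF2 k u v w (by linarith) (by linarith) (by linarith) h2 h3 h3'
      rw [hGn]
      have h5 : 0 < (c k)⁻¹ := inv_pos.2 (hc0 k)
      have h6 : G k v + G k w - (2 : ℝ) • G k u = (c k)⁻¹ • (F k v + F k w - (2 : ℝ) • F k u) := by
        rw [hGd, hGd, hGd]
        module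
      rw [h6, norm_smul, Real.norm_eq_abs, abs_of_pos h5]
      calc (c k)⁻¹ * ‖F k v + F k w - (2 : ℝ) • F k u‖ ≤ (c k)⁻¹ * (1 / ((k : ℝ) + 1) * ‖F k u - F k v‖) :=
            mul_le_mul_of_nonneg_left h4 h5.le
        _ = 1 / ((k : ℝ) + 1) * ((c k)⁻¹ * ‖F k u - F k v‖) := by ring
    · rw [hGd]; simp
    · rw [hGn, ← hc, inv_mul_cancel₀ (hc0 k).ne']
  obtain ⟨g, L, hg, hL, hgQ⟩ := hG.affine hn (T := fun _ x => x) (fun _ _ _ => rfl) ⟨0, fun k => by simp⟩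
  have hg0 : g 0 = 0 := by
    have h2 : Tendsto (fun k => G k 0) UU (𝓝 0) := by
      simp only [hG.zero]
      exact tendsto_const_nhds
    exact tendsto_nhds_unique (hg 0) h2
  have hLe : ‖L e‖ = 1 := by
    have t1 : Tendsto (fun k => ‖G k 0 - G k e‖) UU (𝓝 ‖g 0 - g e‖) := ((hg 0).sub (hg e)).norm
    simp only [hG.unit] at t1
    have h2 := tendsto_nhds_unique t1 tendsto_const_nhds
    rw [hL e, sub_add_cancel_left, norm_neg] at h2
    exact h2
  have hLu : ∀ z : E n, ‖z‖ = 1 → 1 ≤ K * ‖L z‖ ∧ ‖L z‖ ≤ K := by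
    intro z hz
    have h2 := hgQ 0 e z (by rw [zero_sub, norm_neg, he]) (by rw [zero_sub, norm_neg, hz])
    have h3 := hgQ 0 z e (by rw [zero_sub, norm_neg, hz]) (by rw [zero_sub, norm_neg, he])
    rw [hL e, hL z, sub_add_cancel_left, sub_add_cancel_left, norm_neg, norm_neg, hLe] at h2 h3
    exact ⟨h2, by linarith⟩
  have hLb : ∀ z, ‖z‖ ≤ K * ‖L z‖ ∧ ‖L z‖ ≤ K * ‖z‖ := by
    intro z
    by_cases hz : z = 0
    · rw [hz]; simp
    have hzn : 0 < ‖z‖ := norm_pos_iff.2 hz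
    obtain ⟨h2, h3⟩ := hLu (‖z‖⁻¹ • z) (by rw [norm_smul, norm_inv, norm_norm, inv_mul_cancel₀ hzn.ne'])
    rw [map_smul, norm_smul, norm_inv, norm_norm] at h2 h3
    have h4 : K * (‖z‖⁻¹ * ‖L z‖) = (K * ‖L z‖) / ‖z‖ := by field_simp
    rw [h4, le_div_iff₀ hzn, one_mul] at h2
    rw [inv_mul_eq_div, div_le_iff₀ hzn] at h3
    exact ⟨h2, h3⟩
  have h2 : ∀ k, ∃ u : E n, ‖u‖ ≤ R ∧ ε < ‖(c k)⁻¹ • (F k u - F k 0) - L u‖ := fun k =>
    hF3 k _ L (inv_pos.2 (hc0 k)) hLb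
  choose u hu huu using h2
  have hu0 : ∃ u0 : E n, Tendsto u UU (𝓝 u0) := by
    have h3 := (isCompact_closedBall (0 : E n) R).ultrafilter_le_nhds ((hyperfilter ℕ).map u) (by
      rw [le_principal_iff]
      show ∀ᶠ k in UU, u k ∈ closedBall (0 : E n) R
      exact Eventually.of_forall fun k => mem_closedBall_zero_iff.2 (hu k))
    obtain ⟨y, _, hy⟩ := h3
    exact ⟨y, hy⟩
  obtain ⟨u0, hu0⟩ := hu0
  have t1 : Tendsto (fun k => ‖u k - u0‖) UU (𝓝 0) := by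
    have := (hu0.sub_const u0).norm
    rwa [sub_self, norm_zero] at this
  have t2 := hG.tozero hn (p := u) (q := fun _ => u0) ⟨R, hu⟩ ⟨‖u0‖, fun _ => le_rfl⟩ t1
  have t3 : Tendsto (fun k => G k (u k) - G k u0) UU (𝓝 0) := tendsto_zero_iff_norm_tendsto_zero.2 t2
  have t4 : Tendsto (fun k => ‖G k (u k) - L (u k)‖) UU (𝓝 0) := by
    have t5 : Tendsto (fun k => (G k (u k) - G k u0) + G k u0 - L (u k)) UU (𝓝 (0 + g u0 - L u0)) :=
      (t3.add (hg u0)).sub ((L.continuous.tendsto u0).comp hu0)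
    rw [hL u0, hg0, zero_add, zero_add, sub_self] at t5
    have t6 := t5.norm
    rw [norm_zero] at t6
    refine t6.congr fun k => ?_
    rw [sub_add_cancel]
  obtain ⟨k, hk⟩ := (t4.eventually (gt_mem_nhds hε)).exists
  have h5 := huu k
  rw [← hGd] at h5
  linarith

end Pool.Agent.H33.NA
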